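import Pool.Agent.K1H12.SW.Stm3
import Pool.Agent.K1H78.HE.Bur

set_option autoImplicit false

/-!
# Piece ART of the project HE: Artin's theorem, the order of the group is a difference of permutation
characters with cyclic stabilizers
-/

namespace Pool.Agent.K1H85.HE

open Pool.Agent.K1H12.SW Pool.Agent.K1H78.HE

section

variable {Q : Type} [Group Q]

/-- cyclic subgroups -/
abbrev Cy (Q : Type) [Group Q] : Subgroup Q → Prop := fun H => IsCyclic H

/-- differences of permutation characters with cyclic stabilizers -/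
def J (Q : Type) [Group Q] : AddSubgroup (Q → ℤ) where
  carrier := {z | ∃ f g : Q → ℕ, PC Q (Cy Q) f ∧ PC Q (Cy Q) g ∧ ∀ q, z q + (f q : ℤ) = g q}
  zero_mem' := ⟨_, _, PC.zero, PC.zero, fun q => by simp⟩
  add_mem' := by
    rintro a b ⟨f, g, hf, hg, h⟩ ⟨f', g', hf', hg', h'⟩
    refine ⟨_, _, hf.add hf', hg.add hg', fun q => ?_⟩
    have := h q
    have := h' q
    rw [Pi.add_apply]
    push_cast
    linarith
  neg_mem' := by
    rintro a ⟨f, g, hf, hg, h⟩
    refine ⟨g, f, hg, hf, fun q => ?_⟩
    have := h q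
    rw [Pi.neg_apply]
    linarith

theorem cyclic_stab (B : Subgroup Q) (hB : IsCyclic B) (x : Q ⧸ B) :
    IsCyclic (MulAction.stabilizer Q x) := by
  obtain ⟨g, rfl⟩ := QuotientGroup.mk_surjective x
  have e : (QuotientGroup.mk g : Q ⧸ B) = g • ((1 : Q) : Q ⧸ B) := by
    change _ = ((g * 1 : Q) : Q ⧸ B)
    rw [mul_one]
  rw [e, MulAction.stabilizer_smul_eq_stabilizer_map_conj, MulAction.stabilizer_quotient]
  exact isCyclic_of_injective
    (B.equivMapOfInjective (MulAut.conj g).toMonoidHom
      (MulAut.conj g).injective).symm.toMonoidHom (MulEquiv.injective _)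

theorem pc_quot [Finite Q] (B : Subgroup Q) (hB : IsCyclic B) :
    PC Q (Cy Q) (fun q => Nat.card (MulAction.fixedBy (Q ⧸ B) q)) :=
  ⟨Q ⧸ B, inferInstance, inferInstance, cyclic_stab B hB, fun _ => rfl⟩

theorem card_conj [Finite Q] (B : Subgroup Q) (x : Q) :
    Nat.card {y : Q // y⁻¹ * x * y ∈ B} =
      Nat.card B * Nat.card (MulAction.fixedBy (Q ⧸ B) x) := by
  rw [← Nat.card_prod]
  have key : ∀ y : Q, y⁻¹ * x * y ∈ B ↔ x • (y : Q ⧸ B) = y := by
    intro y
    change _ ↔ ((x * y : Q) : Q ⧸ B) = y
    rw [eq_comm, QuotientGroup.eq, mul_assoc]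
  refine Nat.card_congr ?_
  refine
    { toFun := fun y => (⟨((y.1 : Q ⧸ B)).out⁻¹ * y.1, by
          rw [← QuotientGroup.eq]
          exact QuotientGroup.out_eq' _⟩, ⟨(y.1 : Q ⧸ B), (key y.1).mp y.2⟩)
      invFun := fun z => ⟨z.2.1.out * z.1.1, by
          rw [key, QuotientGroup.mk_mul_of_mem _ z.1.2, QuotientGroup.out_eq']
          exact z.2.2⟩
      left_inv := ?_
      right_inv := ?_ }
  · intro y
    apply Subtype.ext
    simp
  · rintro ⟨⟨b, hb⟩, ⟨c, hc⟩⟩
    have h1 : ((c.out * b : Q) : Q ⧸ B) = c := by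
      rw [QuotientGroup.mk_mul_of_mem _ hb, QuotientGroup.out_eq']
    refine Prod.ext (Subtype.ext ?_) (Subtype.ext ?_)
    · change ((c.out * b : Q) : Q ⧸ B).out⁻¹ * (c.out * b) = b
      rw [h1]
      simp
    · exact h1

end

theorem t_ART : S_ART := by
  intro Q _ _
  classical
  haveI := Fintype.ofFinite Q
  haveI := Fintype.ofFinite (Subgroup Q)
  set F : Subgroup Q → Q → ℤ := fun C x =>
    ((Finset.univ.filter fun y : Q => y⁻¹ * x * y ∈ C).card : ℤ) with hF
  set G : Subgroup Q → Q → ℤ := fun C x =>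
    ((Finset.univ.filter fun y : Q => Subgroup.zpowers (y⁻¹ * x * y) = C).card : ℤ) with hG
  have hFJ : ∀ C : Subgroup Q, IsCyclic C → F C ∈ J Q := by
    intro C hC
    refine ⟨_, _, PC.zero, (pc_quot C hC).smul (Nat.card C), fun q => ?_⟩
    rw [← card_conj, Nat.card_eq_fintype_card, Fintype.card_subtype]
    simp [hF]
  have hFG : ∀ C : Subgroup Q, F C = ∑ B ∈ Finset.univ.filter (fun B => B ≤ C), G B := by
    intro C
    funext x
    rw [Finset.sum_apply]
    simp only [hF, hG]
    rw [Finset.card_eq_sum_card_fiberwise (f := fun y : Q => Subgroup.zpowers (y⁻¹ * x * y))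
      (t := Finset.univ.filter (fun B => B ≤ C))]
    · rw [Nat.cast_sum]
      refine Finset.sum_congr rfl fun B hB => ?_
      rw [Finset.filter_filter]
      congr 2
      ext y
      simp only [Finset.mem_filter, Finset.mem_univ, true_and] at hB ⊢
      constructor
      · exact fun h => h.2
      · intro h
        exact ⟨hB (h ▸ Subgroup.mem_zpowers _), h⟩
    · intro y hy
      simp only [Finset.coe_filter, Finset.mem_univ, true_and, Set.mem_setOf_eq] at hy ⊢
      exact Subgroup.zpowers_le.mpr hy
  have hGJ : ∀ C : Subgroup Q, G C ∈ J Q := by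
    intro C
    induction C using WellFoundedLT.induction with
    | _ C ih =>
      by_cases hC : IsCyclic C
      · have h1 : G C = F C - ∑ B ∈ Finset.univ.filter (fun B => B < C), G B := by
          rw [hFG C, eq_sub_iff_add_eq]
          have h2 : (Finset.univ.filter (fun B => B ≤ C)) =
              insert C (Finset.univ.filter (fun B => B < C)) := by
            ext B
            simp only [Finset.mem_filter, Finset.mem_univ, true_and, Finset.mem_insert]
            exact le_iff_eq_or_lt
          rw [h2, Finset.sum_insert (by simp)]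
        rw [h1]
        exact sub_mem (hFJ C hC) (sum_mem fun B hB => ih B (Finset.mem_filter.mp hB).2)
      · have h1 : G C = 0 := by
          funext x
          simp only [hG, Pi.zero_apply, Nat.cast_eq_zero, Finset.card_eq_zero]
          rw [Finset.filter_eq_empty_iff]
          intro y _ hy
          exact hC (hy ▸ inferInstance)
        rw [h1]
        exact zero_mem _
  have hsum : (fun _ : Q => (Nat.card Q : ℤ)) = ∑ C : Subgroup Q, G C := by
    funext x
    rw [Finset.sum_apply]
    simp only [hG]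
    rw [← Nat.cast_sum, ← Finset.card_eq_sum_card_fiberwise
      (f := fun y : Q => Subgroup.zpowers (y⁻¹ * x * y)) (fun y _ => by simp), Finset.card_univ,
      Nat.card_eq_fintype_card]
  have hmem : (fun _ : Q => (Nat.card Q : ℤ)) ∈ J Q := by
    rw [hsum]
    exact sum_mem fun C _ => hGJ C
  obtain ⟨f, g, hf, hg, h⟩ := hmem
  exact indM_iff.mpr ⟨f, g, hf, hg, fun q => by
    have h1 : (Nat.card Q : ℤ) + (f q : ℤ) = g q := h q
    exact_mod_cast h1⟩

end Pool.Agent.K1H85.HE
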